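import Pool.Agent.Helper21.W4.St4

/-!
# Module E: numerical data, types 0 and 1
-/

set_option autoImplicit false

namespace Pool.Agent.Helper96.W4

open Pool.Agent.Helper21.W4 Finset

private theorem nf01 (A W : ℕ) (hA : 1 ≤ A) :
    0 ≤ nf A W ∧ nf A W ≤ 1 ∧ 3 * nf A W ≤ nf A W * ((W : ℤ) + 2) := by
  unfold nf
  split_ifs with h
  · simp
  · refine ⟨by norm_num, le_refl _, ?_⟩
    have : 1 ≤ W := by omega
    have h' : (1 : ℤ) ≤ (W : ℤ) := by exact_mod_cast this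
    linarith

private theorem endE (h1 : StNnf) (h2 : StNstar) (h3 : StNzv) (x : Dat) (s : ℕ) (hB : Base x)
    (hY : Yo x s)
    (hG : Good (3 - (((W1 x : ℤ) + W2 x + W3 x) - s) + X0 x)
      ((((W1 x : ℤ) + W2 x + W3 x) - s) + 1 + x.a12 + x.a13 + x.a23 + x.bk))
    (hV : 2 ≤ (((W1 x : ℤ) + W2 x + W3 x) - s) + 1 + x.a12 + x.a13 + x.a23 + x.bk) :
    TgtN x := by
  obtain ⟨p1, p2, p3⟩ := nf01 x.A1 (W1 x) hB.A1
  obtain ⟨q1, q2, q3⟩ := nf01 x.A2 (W2 x) hB.A2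
  obtain ⟨r1, r2, r3⟩ := nf01 x.A3 (W3 x) hB.A3
  obtain ⟨e1, e2⟩ := h3 x s hB hY
  refine h2 x hB (h1 _ _ _ _ (nf x.A1 (W1 x) + nf x.A2 (W2 x) + nf x.A3 (W3 x)) hG hV
    (by linarith) (by linarith) (by linarith) (by linarith))

private theorem sq_le (k e a : ℕ) (h : k ≤ e) (hb : e * e + e ≤ 2 * a) :
    (k : ℤ) * k + k ≤ 2 * (a : ℤ) := by
  have h1 : k * k ≤ e * e := Nat.mul_le_mul h h
  have h2 : k * k + k ≤ 2 * a := by omega
  exact_mod_cast h2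

private theorem one_le (e a : ℕ) (h : 1 ≤ e) (hb : e * e + e ≤ 2 * a) : (1 : ℤ) ≤ a := by
  have h1 : 1 * 1 ≤ e * e := Nat.mul_le_mul h h
  have h2 : 1 ≤ a := by omega
  exact_mod_cast h2

theorem hE1 : StE1 := by
  intro _ g1 g2 g3 g4 x s hB hY hT hs
  obtain ⟨u1, u1'⟩ := hT.u1
  obtain ⟨u2, u2'⟩ := hT.u2
  obtain ⟨u3, u3'⟩ := hT.u3
  have x12 := hT.x12
  have x13 := hT.x13
  have x23 := hT.x23
  have sp := hT.sp
  have L := hT.L
  obtain ⟨k12a, k12b, k12c, k12d⟩ := hB.k12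
  obtain ⟨k13a, k13b, k13c, k13d⟩ := hB.k13
  obtain ⟨k23a, k23b, k23c, k23d⟩ := hB.k23
  have d12 := hB.d12
  have d13 := hB.d13
  have d21 := hB.d21
  have d23 := hB.d23
  have d31 := hB.d31
  have d32 := hB.d32
  obtain ⟨_, _, e12, _⟩ := hB.e12
  obtain ⟨_, _, e13, _⟩ := hB.e13
  obtain ⟨_, _, e23, _⟩ := hB.e23
  have hX : X0 x ≤ 4 + (x.d12 + x.d21 + x.d13 + x.d31 + x.d23 + x.d32 : ℤ) +
      (x.k12 + x.k13 + x.k23 : ℤ) := by
    unfold X0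
    omega
  have hW1 : x.u1 + x.d12 + x.d13 ≤ W1 x := by
    unfold W1
    omega
  have hW2 : x.u2 + x.d21 + x.d23 ≤ W2 x := by
    unfold W2
    omega
  have hW3 : x.u3 + x.d31 + x.d32 ≤ W3 x := by
    unfold W3
    omega
  have E12 : 1 ≤ x.e12 := e12 (by omega)
  have E13 : 1 ≤ x.e13 := e13 (by omega)
  have E23 : 1 ≤ x.e23 := e23 (by omega)
  have A12 := one_le _ _ E12 hB.b12
  have A13 := one_le _ _ E13 hB.b13
  have A23 := one_le _ _ E23 hB.b23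
  refine endE g1 g2 g3 x s hB hY ?_ (by omega)
  exact g4 x.k12 x.k13 x.k23 x.a12 x.a13 x.a23 _ _ (by omega) (by omega) (by omega) A12 A13 A23
    (sq_le _ _ _ k12a hB.b12) (sq_le _ _ _ k13a hB.b13) (sq_le _ _ _ k23a hB.b23)
    (by omega) (by omega)

theorem hE2 : StE2 := by
  intro _ g1 g2 g3 g4 x s hB hY hT hs
  obtain ⟨u1, u1'⟩ := hT.u1
  obtain ⟨u2, u2'⟩ := hT.u2
  obtain ⟨u3, u3'⟩ := hT.u3
  have x12 := hT.x12
  have x13 := hT.x13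
  have x23 := hT.x23
  have sp := hT.sp
  have L := hT.L
  obtain ⟨k12a, k12b, k12c, k12d⟩ := hB.k12
  obtain ⟨k13a, k13b, k13c, k13d⟩ := hB.k13
  obtain ⟨k23a, k23b, k23c, k23d⟩ := hB.k23
  have d12 := hB.d12
  have d13 := hB.d13
  have d21 := hB.d21
  have d23 := hB.d23
  have d31 := hB.d31
  have d32 := hB.d32
  obtain ⟨_, _, e12, _⟩ := hB.e12
  obtain ⟨_, _, e13, _⟩ := hB.e13
  obtain ⟨_, _, e23, _⟩ := hB.e23
  have hX : X0 x ≤ 4 + (x.d12 + x.d21 + x.d13 + x.d31 + x.d23 + x.d32 : ℤ) +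
      (x.k12 + x.k13 + x.k23 : ℤ) := by
    unfold X0
    omega
  have hW1 : x.w12 + x.d13 ≤ W1 x := by
    unfold W1
    omega
  have hW2 : x.w21 + x.d23 ≤ W2 x := by
    unfold W2
    omega
  have hW3 : x.u3 + x.d31 + x.d32 ≤ W3 x := by
    unfold W3
    omega
  have E12 : 1 ≤ x.e12 := e12 (by omega)
  have E13 : 1 ≤ x.e13 := e13 (by omega)
  have E23 : 1 ≤ x.e23 := e23 (by omega)
  have A12 := one_le _ _ E12 hB.b12
  have A13 := one_le _ _ E13 hB.b13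
  have A23 := one_le _ _ E23 hB.b23
  refine endE g1 g2 g3 x s hB hY ?_ (by omega)
  exact g4 x.e12 x.k13 x.k23 x.a12 x.a13 x.a23 _ _ (by omega) (by omega) (by omega) A13 A23
    (sq_le _ _ _ (le_refl _) hB.b12) (sq_le _ _ _ k13a hB.b13) (sq_le _ _ _ k23a hB.b23)
    (by omega) (by omega)

end Pool.Agent.Helper96.W4
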