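import Pool.Agent.Helper21.W4.St1

/-!
# Module Mx: the entries 1 with both neighbours 0
-/

set_option autoImplicit false

namespace Pool.Agent.Helper96.W4

open Pool.Agent.Helper21.W4 Finset

theorem hMx : StMx := by
  intro B h1 h2 h3 hP
  have e12 := hP.e12
  have e13 := hP.e13
  set S : Finset (ℕ × ℕ) := (range B ×ˢ range B).filter
    (fun x => h3 x.1 x.2 = 1 ∧ h3 (x.1 + 1) x.2 = 0 ∧ h3 x.1 (x.2 + 1) = 0) with hS
  have hmx : mx1 B h3 = S.card := rfl
  have hin : ∀ x ∈ S, x.1 ∈ range B ∧ h3 x.1 x.2 = 1 ∧ h3 (x.1 + 1) x.2 = 0 ∧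
      h3 x.1 (x.2 + 1) = 0 := by
    intro x hx
    rw [hS, mem_filter, mem_product] at hx
    exact ⟨hx.1.1, hx.2⟩
  have hsub : S ⊆ S.filter (fun x => 1 ≤ x.1 ∧ 1 ≤ x.2) ∪ S.filter (fun x => x.2 = 0) ∪
      S.filter (fun x => x.1 = 0) := by
    intro x hx
    by_cases h0 : x.2 = 0
    · exact mem_union.2 (Or.inl (mem_union.2 (Or.inr (mem_filter.2 ⟨hx, h0⟩))))
    by_cases h0' : x.1 = 0
    · exact mem_union.2 (Or.inr (mem_filter.2 ⟨hx, h0'⟩))
    · exact mem_union.2 (Or.inl (mem_union.2 (Or.inl (mem_filter.2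
        ⟨hx, by omega, by omega⟩))))
  -- consequences
  have c2 : ∀ x ∈ S, h2 x.1 0 = x.2 + 1 ∧ h2 (x.1 + 1) 0 ≤ x.2 := by
    intro x hx
    obtain ⟨_, a, b, c⟩ := hin x hx
    have t1 : x.2 < h2 x.1 0 := (e12 _ _ _).1 ((e13 _ _ _).2 (by omega))
    have t2 : ¬ x.2 + 1 < h2 x.1 0 := by
      intro h
      have := (e13 _ _ _).1 ((e12 _ _ _).2 h)
      omega
    have t3 : ¬ x.2 < h2 (x.1 + 1) 0 := by
      intro h
      have := (e13 _ _ _).1 ((e12 _ _ _).2 h)
      omega
    omega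
  have k2 : (S.filter (fun x => 1 ≤ x.1 ∧ 1 ≤ x.2)).card ≤ unc B h3 (fun p => h2 p 0) := by
    unfold unc
    apply card_le_card_of_injOn Prod.fst
    · intro x hx
      rw [mem_coe, mem_filter] at hx
      obtain ⟨hx, hx1, hx2⟩ := hx
      obtain ⟨hr, a, b, c⟩ := hin x hx
      obtain ⟨d, e⟩ := c2 x hx
      rw [mem_coe, mem_filter]
      refine ⟨?_, ?_⟩
      · unfold cor
        rw [mem_filter]
        refine ⟨hr, hx1, ?_, ?_⟩
        · show 2 ≤ h2 x.1 0
          omega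
        · show h2 (x.1 + 1) 0 < h2 x.1 0
          omega
      · show h3 x.1 (h2 x.1 0 - 1) = 1
        rw [d, Nat.add_sub_cancel]
        exact a
    · intro x hx y hy hxy
      rw [mem_coe, mem_filter] at hx hy
      have hxy' : x.1 = y.1 := hxy
      obtain ⟨d, _⟩ := c2 x hx.1
      obtain ⟨d', _⟩ := c2 y hy.1
      rw [hxy'] at d
      exact Prod.ext hxy' (by omega)
  have k0 : (S.filter (fun x => x.2 = 0)).card ≤
      (if h1 1 0 < h1 0 0 ∧ h1 0 1 < h1 0 0 then 1 else 0) := by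
    have key : ∀ x ∈ S.filter (fun x => x.2 = 0), h1 0 0 = x.1 + 1 ∧ x.2 = 0 ∧
        h1 1 0 < h1 0 0 ∧ h1 0 1 < h1 0 0 := by
      intro x hx
      rw [mem_filter] at hx
      obtain ⟨hx, hx2⟩ := hx
      obtain ⟨_, a, b, c⟩ := hin x hx
      rw [hx2] at a b c
      have t1 : x.1 < h1 0 0 := (e13 _ _ _).2 (by omega)
      have t2 : ¬ x.1 + 1 < h1 0 0 := by
        intro h
        have := (e13 _ _ _).1 h
        omega
      have t3 : ¬ x.1 < h1 1 0 := by
        intro h
        have := (e13 _ _ _).1 h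
        simp only [zero_add] at c
        omega
      have t4 : ¬ x.1 < h1 0 1 := by
        intro h
        have := (e13 _ _ _).1 h
        omega
      refine ⟨?_, hx2, ?_, ?_⟩ <;> omega
    split_ifs with hc
    · rw [card_le_one]
      intro x hx y hy
      obtain ⟨a, b, _⟩ := key x hx
      obtain ⟨a', b', _⟩ := key y hy
      exact Prod.ext (by omega) (by omega)
    · rw [Nat.le_zero, card_eq_zero, eq_empty_iff_forall_notMem]
      intro x hx
      exact hc (key x hx).2.2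
  have k1 : (S.filter (fun x => x.1 = 0)).card ≤
      (if h2 1 0 < h2 0 0 ∧ h2 0 1 < h2 0 0 then 1 else 0) := by
    have key : ∀ x ∈ S.filter (fun x => x.1 = 0), h2 0 0 = x.2 + 1 ∧ x.1 = 0 ∧
        h2 1 0 < h2 0 0 ∧ h2 0 1 < h2 0 0 := by
      intro x hx
      rw [mem_filter] at hx
      obtain ⟨hx, hx2⟩ := hx
      obtain ⟨_, a, b, c⟩ := hin x hx
      rw [hx2] at a b c
      have t1 : x.2 < h2 0 0 := (e12 _ _ _).1 ((e13 _ _ _).2 (by omega))
      have t2 : ¬ x.2 + 1 < h2 0 0 := by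
        intro h
        have := (e13 _ _ _).1 ((e12 _ _ _).2 h)
        omega
      have t3 : ¬ x.2 < h2 1 0 := by
        intro h
        have := (e13 _ _ _).1 ((e12 _ _ _).2 h)
        simp only [zero_add] at b
        omega
      have t4 : ¬ x.2 < h2 0 1 := by
        intro h
        have := (e13 _ _ _).1 ((e12 _ _ _).2 h)
        omega
      refine ⟨?_, hx2, ?_, ?_⟩ <;> omega
    split_ifs with hc
    · rw [card_le_one]
      intro x hx y hy
      obtain ⟨a, b, _⟩ := key x hx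
      obtain ⟨a', b', _⟩ := key y hy
      exact Prod.ext (by omega) (by omega)
    · rw [Nat.le_zero, card_eq_zero, eq_empty_iff_forall_notMem]
      intro x hx
      exact hc (key x hx).2.2
  have h1' := card_le_card hsub
  have h2' := card_union_le (S.filter (fun x => 1 ≤ x.1 ∧ 1 ≤ x.2) ∪ S.filter (fun x => x.2 = 0))
    (S.filter (fun x => x.1 = 0))
  have h3' := card_union_le (S.filter (fun x => 1 ≤ x.1 ∧ 1 ≤ x.2)) (S.filter (fun x => x.2 = 0))
  rw [hmx]
  omega

end Pool.Agent.Helper96.W4
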